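import Pool.Agent.Y262.EG.Stm

/-!
# Project EG: the lift of a holomorphic local isometry preserves the frame
-/

set_option autoImplicit false

open Set Filter Topology MeasureTheory
open scoped ContDiff

noncomputable section

namespace Pool.Agent.Y46.EG

open Pool.Agent.Y262.EG

/-- a real linear functional on `ℂ` in coordinates -/
lemma lin_eq (L : ℂ →L[ℝ] ℝ) (z : ℂ) : L z = z.re * L 1 + z.im * L Complex.I := by
  conv_lhs => rw [← Complex.re_add_im z]
  rw [map_add]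
  congr 1
  · have : ((z.re : ℝ) : ℂ) = z.re • (1 : ℂ) := by simp
    rw [this, map_smul, smul_eq_mul]
  · have : ((z.im : ℝ) : ℂ) * Complex.I = z.im • Complex.I := by simp
    rw [this, map_smul, smul_eq_mul]

/-- derivative of a real function along a holomorphic map -/
lemma comp_deriv {f : ℂ → ℝ} {g : ℂ → ℂ} {g' : ℂ} {z : ℂ} (hf : DifferentiableAt ℝ f (g z))
    (hg : HasDerivAt g g' z) :
    px (fun ζ => f (g ζ)) z = g'.re * px f (g z) + g'.im * py f (g z) ∧
      py (fun ζ => f (g ζ)) z = -g'.im * px f (g z) + g'.re * py f (g z) := by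
  have hg2 : HasFDerivAt g ((ContinuousLinearMap.toSpanSingleton ℂ g').restrictScalars ℝ) z := by
    exact hg.hasFDerivAt.restrictScalars ℝ
  have h := (hf.hasFDerivAt.comp z hg2).fderiv
  have h' : fderiv ℝ (fun ζ => f (g ζ)) z = _ := h
  unfold px py
  rw [h']
  constructor
  · simp only [ContinuousLinearMap.comp_apply, ContinuousLinearMap.coe_restrictScalars',
      ContinuousLinearMap.toSpanSingleton_apply, smul_eq_mul, one_mul]
    exact lin_eq _ _
  · simp only [ContinuousLinearMap.comp_apply, ContinuousLinearMap.coe_restrictScalars',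
      ContinuousLinearMap.toSpanSingleton_apply, smul_eq_mul]
    rw [lin_eq]
    simp

/-- the derivatives of the real and the imaginary part of a holomorphic function -/
lemma re_im_deriv {g : ℂ → ℂ} {g' : ℂ} {z : ℂ} (hg : HasDerivAt g g' z) :
    (HasFDerivAt (fun ζ => (g ζ).re)
      (Complex.reCLM.comp ((ContinuousLinearMap.toSpanSingleton ℂ g').restrictScalars ℝ)) z ∧
    HasFDerivAt (fun ζ => (g ζ).im)
      (Complex.imCLM.comp ((ContinuousLinearMap.toSpanSingleton ℂ g').restrictScalars ℝ)) z) ∧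
    (px (fun ζ => (g ζ).re) z = g'.re ∧ py (fun ζ => (g ζ).re) z = -g'.im) ∧
      (px (fun ζ => (g ζ).im) z = g'.im ∧ py (fun ζ => (g ζ).im) z = g'.re) := by
  have hg2 : HasFDerivAt g ((ContinuousLinearMap.toSpanSingleton ℂ g').restrictScalars ℝ) z := by
    exact hg.hasFDerivAt.restrictScalars ℝ
  have h1 : HasFDerivAt (fun ζ => (g ζ).re)
      (Complex.reCLM.comp ((ContinuousLinearMap.toSpanSingleton ℂ g').restrictScalars ℝ)) z :=
    Complex.reCLM.hasFDerivAt.comp z hg2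
  have h2 : HasFDerivAt (fun ζ => (g ζ).im)
      (Complex.imCLM.comp ((ContinuousLinearMap.toSpanSingleton ℂ g').restrictScalars ℝ)) z :=
    Complex.imCLM.hasFDerivAt.comp z hg2
  refine ⟨⟨h1, h2⟩, ⟨?_, ?_⟩, ⟨?_, ?_⟩⟩
  · unfold px; rw [h1.fderiv]; simp
  · unfold py; rw [h1.fderiv]; simp
  · unfold px; rw [h2.fderiv]; simp
  · unfold py; rw [h2.fderiv]; simp

section

variable {Ω : Set ℂ} {φ : ℂ → ℝ} {z0 : ℂ} {r : ℝ} {γ : ℂ → ℂ}

lemma dpx (hO : IsOpen Ω) (hφ : ContDiffOn ℝ ∞ φ Ω) {w : ℂ} (hw : w ∈ Ω) :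
    DifferentiableAt ℝ φ w ∧ DifferentiableAt ℝ (px φ) w ∧ DifferentiableAt ℝ (py φ) w := by
  have h1 : ContDiffAt ℝ ∞ φ w := hφ.contDiffAt (hO.mem_nhds hw)
  have h2 : ContDiffAt ℝ 1 (fderiv ℝ φ) w := by
    have h3 : ContDiffAt ℝ 2 φ w := h1.of_le (by
      show ((2 : ℕ∞) : WithTop ℕ∞) ≤ ((⊤ : ℕ∞) : WithTop ℕ∞)
      exact WithTop.coe_le_coe.2 le_top)
    exact h3.fderiv_right (m := 1) (by norm_num)
  have h4 : DifferentiableAt ℝ (fderiv ℝ φ) w := h2.differentiableAt (by norm_num)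
  refine ⟨h1.differentiableAt (by simp), ?_, ?_⟩
  · exact h4.clm_apply (differentiableAt_const _)
  · exact h4.clm_apply (differentiableAt_const _)

/-- the derivatives of `γ` on the ball -/
lemma dgam (hγ : DifferentiableOn ℂ γ (Metric.ball z0 r)) {ζ : ℂ} (hζ : ζ ∈ Metric.ball z0 r) :
    HasDerivAt γ (deriv γ ζ) ζ ∧ HasDerivAt (deriv γ) (deriv (deriv γ) ζ) ζ := by
  have ho : IsOpen (Metric.ball z0 r) := Metric.isOpen_ball
  have h1 : DifferentiableAt ℂ γ ζ := hγ.differentiableAt (ho.mem_nhds hζ)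
  have h2 : DifferentiableOn ℂ (deriv γ) (Metric.ball z0 r) := hγ.deriv ho
  exact ⟨h1.hasDerivAt, (h2.differentiableAt (ho.mem_nhds hζ)).hasDerivAt⟩

/-- the first derivatives of `φ` and of `φ ∘ γ` -/
lemma first (hO : IsOpen Ω) (hφ : ContDiffOn ℝ ∞ φ Ω)
    (hγ : DifferentiableOn ℂ γ (Metric.ball z0 r))
    (hh : ∀ ζ ∈ Metric.ball z0 r, γ ζ ∈ Ω ∧ deriv γ ζ ≠ 0 ∧
      φ (γ ζ) + Real.log ‖deriv γ ζ‖ = φ ζ) {ζ : ℂ} (hζ : ζ ∈ Metric.ball z0 r) :
    px φ ζ = (deriv γ ζ).re * px φ (γ ζ) + (deriv γ ζ).im * py φ (γ ζ) +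
        (deriv (deriv γ) ζ / deriv γ ζ).re ∧
      py φ ζ = -(deriv γ ζ).im * px φ (γ ζ) + (deriv γ ζ).re * py φ (γ ζ) -
        (deriv (deriv γ) ζ / deriv γ ζ).im := by
  have ho : IsOpen (Metric.ball z0 r) := Metric.isOpen_ball
  obtain ⟨hg1, hg2⟩ := dgam hγ hζ
  obtain ⟨hw, hne, -⟩ := hh ζ hζ
  have hc := comp_deriv (dpx hO hφ hw).1 hg1
  -- the function `log (γ' / γ' ζ)`
  have hL : HasDerivAt (fun ξ => Complex.log (deriv γ ξ / deriv γ ζ))
      (deriv (deriv γ) ζ / deriv γ ζ) ζ := by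
    have h1 : HasDerivAt (fun ξ => deriv γ ξ / deriv γ ζ) (deriv (deriv γ) ζ / deriv γ ζ) ζ :=
      hg2.div_const _
    have h2 := h1.clog (by simp [div_self hne])
    simpa [div_self hne] using h2
  obtain ⟨⟨h3, -⟩, ⟨h4, h5⟩, -⟩ := re_im_deriv hL
  have hev : φ =ᶠ[𝓝 ζ] fun ξ => φ (γ ξ) + ((Complex.log (deriv γ ξ / deriv γ ζ)).re +
      Real.log ‖deriv γ ζ‖) := by
    filter_upwards [ho.mem_nhds hζ] with ξ hξ
    obtain ⟨-, hne2, he⟩ := hh ξ hξ
    rw [Complex.log_re, norm_div, Real.log_div (by simpa using hne2) (by simpa using hne),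
      ← he]
    ring
  have hd1 : DifferentiableAt ℝ (fun ξ => φ (γ ξ)) ζ :=
    (dpx hO hφ hw).1.comp ζ (hg1.differentiableAt.restrictScalars ℝ)
  have hd2 : DifferentiableAt ℝ (fun ξ => (Complex.log (deriv γ ξ / deriv γ ζ)).re) ζ :=
    h3.differentiableAt
  have hf : fderiv ℝ φ ζ = fderiv ℝ (fun ξ => φ (γ ξ)) ζ +
      fderiv ℝ (fun ξ => (Complex.log (deriv γ ξ / deriv γ ζ)).re) ζ := by
    rw [hev.fderiv_eq]
    rw [fderiv_fun_add hd1 (hd2.add_const _), fderiv_add_const]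
  have hx : px φ ζ = px (fun ξ => φ (γ ξ)) ζ +
      px (fun ξ => (Complex.log (deriv γ ξ / deriv γ ζ)).re) ζ := by
    unfold px; rw [hf]; rfl
  have hy : py φ ζ = py (fun ξ => φ (γ ξ)) ζ +
      py (fun ξ => (Complex.log (deriv γ ξ / deriv γ ζ)).re) ζ := by
    unfold py; rw [hf]; rfl
  refine ⟨?_, ?_⟩
  · rw [hx, hc.1, h4]
  · rw [hy, hc.2, h5]; ring

/-- `exp (- φ)` at the two points -/
lemma expo
    (hh : ∀ ζ ∈ Metric.ball z0 r, γ ζ ∈ Ω ∧ deriv γ ζ ≠ 0 ∧
      φ (γ ζ) + Real.log ‖deriv γ ζ‖ = φ ζ) {ζ : ℂ} (hζ : ζ ∈ Metric.ball z0 r) :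
    Real.exp (-φ (γ ζ)) = Real.exp (-φ ζ) * ‖deriv γ ζ‖ := by
  obtain ⟨-, hne, he⟩ := hh ζ hζ
  have hp : 0 < ‖deriv γ ζ‖ := norm_pos_iff.mpr hne
  rw [← he, neg_add, Real.exp_add, Real.exp_neg (Real.log _), Real.exp_log hp]
  field_simp

lemma curv_eq (hO : IsOpen Ω) (hφ : ContDiffOn ℝ ∞ φ Ω)
    (hγ : DifferentiableOn ℂ γ (Metric.ball z0 r))
    (hh : ∀ ζ ∈ Metric.ball z0 r, γ ζ ∈ Ω ∧ deriv γ ζ ≠ 0 ∧
      φ (γ ζ) + Real.log ‖deriv γ ζ‖ = φ ζ) {ζ : ℂ} (hζ : ζ ∈ Metric.ball z0 r) :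
    curv φ (γ ζ) = curv φ ζ := by
  have ho : IsOpen (Metric.ball z0 r) := Metric.isOpen_ball
  obtain ⟨hg1, hg2⟩ := dgam hγ hζ
  obtain ⟨hw, hne, -⟩ := hh ζ hζ
  obtain ⟨-, hdx, hdy⟩ := dpx hO hφ hw
  have hcx := comp_deriv hdx hg1
  have hcy := comp_deriv hdy hg1
  obtain ⟨⟨hra, hia⟩, ⟨ha1, ha2⟩, ⟨hb1, hb2⟩⟩ := re_im_deriv hg2
  -- the quotient
  have hG : DifferentiableOn ℂ (fun ξ => deriv (deriv γ) ξ / deriv γ ξ) (Metric.ball z0 r) :=
    ((hγ.deriv ho).deriv ho).div (hγ.deriv ho) (fun ξ hξ => (hh ξ hξ).2.1)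
  have hG1 : HasDerivAt (fun ξ => deriv (deriv γ) ξ / deriv γ ξ)
      (deriv (fun ξ => deriv (deriv γ) ξ / deriv γ ξ) ζ) ζ :=
    (hG.differentiableAt (ho.mem_nhds hζ)).hasDerivAt
  set G' : ℂ := deriv (fun ξ => deriv (deriv γ) ξ / deriv γ ξ) ζ with hG'
  obtain ⟨⟨hrG, hiG⟩, ⟨hG1', hG2'⟩, ⟨hG3', hG4'⟩⟩ := re_im_deriv hG1
  have hevx : px φ =ᶠ[𝓝 ζ] fun ξ => (deriv γ ξ).re * px φ (γ ξ) + (deriv γ ξ).im * py φ (γ ξ) +
        (deriv (deriv γ) ξ / deriv γ ξ).re := by
    filter_upwards [ho.mem_nhds hζ] with ξ hξ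
    exact (first hO hφ hγ hh hξ).1
  have hevy : py φ =ᶠ[𝓝 ζ] fun ξ => -(deriv γ ξ).im * px φ (γ ξ) + (deriv γ ξ).re * py φ (γ ξ) -
        (deriv (deriv γ) ξ / deriv γ ξ).im := by
    filter_upwards [ho.mem_nhds hζ] with ξ hξ
    exact (first hO hφ hγ hh hξ).2
  have hA : DifferentiableAt ℝ (fun ξ => px φ (γ ξ)) ζ :=
    hdx.comp ζ (hg1.differentiableAt.restrictScalars ℝ)
  have hB : DifferentiableAt ℝ (fun ξ => py φ (γ ξ)) ζ :=
    hdy.comp ζ (hg1.differentiableAt.restrictScalars ℝ)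
  have h1 : px (px φ) ζ = ((deriv γ ζ).re * px (fun ξ => px φ (γ ξ)) ζ +
      px φ (γ ζ) * px (fun ξ => (deriv γ ξ).re) ζ) +
      ((deriv γ ζ).im * px (fun ξ => py φ (γ ξ)) ζ +
      py φ (γ ζ) * px (fun ξ => (deriv γ ξ).im) ζ) +
      px (fun ξ => (deriv (deriv γ) ξ / deriv γ ξ).re) ζ := by
    have hf : HasFDerivAt (fun ξ => (deriv γ ξ).re * px φ (γ ξ) + (deriv γ ξ).im * py φ (γ ξ) +
        (deriv (deriv γ) ξ / deriv γ ξ).re) _ ζ :=
      ((hra.differentiableAt.hasFDerivAt.mul hA.hasFDerivAt).add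
        (hia.differentiableAt.hasFDerivAt.mul hB.hasFDerivAt)).add
        hrG.differentiableAt.hasFDerivAt
    unfold px at hf ⊢
    unfold px at hevx
    rw [hevx.fderiv_eq, hf.fderiv]
    simp
  have h2 : py (py φ) ζ = (-(deriv γ ζ).im * py (fun ξ => px φ (γ ξ)) ζ -
      px φ (γ ζ) * py (fun ξ => (deriv γ ξ).im) ζ) +
      ((deriv γ ζ).re * py (fun ξ => py φ (γ ξ)) ζ +
      py φ (γ ζ) * py (fun ξ => (deriv γ ξ).re) ζ) -
      py (fun ξ => (deriv (deriv γ) ξ / deriv γ ξ).im) ζ := by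
    have hf : HasFDerivAt (fun ξ => -(deriv γ ξ).im * px φ (γ ξ) + (deriv γ ξ).re * py φ (γ ξ) -
        (deriv (deriv γ) ξ / deriv γ ξ).im) _ ζ :=
      ((hia.differentiableAt.hasFDerivAt.neg.mul hA.hasFDerivAt).add
        (hra.differentiableAt.hasFDerivAt.mul hB.hasFDerivAt)).sub
        hiG.differentiableAt.hasFDerivAt
    unfold py at hf ⊢
    unfold py at hevy
    rw [hevy.fderiv_eq, hf.fderiv]
    simp
    ring
  have hs : px (px φ) ζ + py (py φ) ζ =
      ((deriv γ ζ).re ^ 2 + (deriv γ ζ).im ^ 2) * (px (px φ) (γ ζ) + py (py φ) (γ ζ)) := by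
    rw [h1, h2, hcx.1, hcx.2, hcy.1, hcy.2, ha1, ha2, hb1, hb2, hG1', hG4']
    ring
  have hn : (deriv γ ζ).re ^ 2 + (deriv γ ζ).im ^ 2 = ‖deriv γ ζ‖ ^ 2 := by
    rw [← Complex.normSq_eq_norm_sq, Complex.normSq_apply]; ring
  have he := expo hh hζ
  have e1 : Real.exp (-2 * φ (γ ζ)) = Real.exp (-φ (γ ζ)) ^ 2 := by
    rw [← Real.exp_nat_mul]; congr 1; push_cast; ring
  have e2 : Real.exp (-2 * φ ζ) = Real.exp (-φ ζ) ^ 2 := by
    rw [← Real.exp_nat_mul]; congr 1; push_cast; ring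
  unfold curv
  rw [hs, hn, e1, e2, he]
  ring

/-- the frame, in coordinates: `A`, `B` are the derivatives of `φ` at `γ ζ`, `c + i s` is the direction
of `γ'`, `N = |γ'|`, `G = γ'' / γ'` -/
lemma frame_calc {A B N c s g1 g2 E co si px0 py0 : ℝ} (hx : px0 = N * c * A + N * s * B + g1)
    (hy : py0 = -(N * s) * A + N * c * B - g2) :
    E * (-px0 * si + py0 * co) + (g1 * (E * si) + g2 * (E * co)) =
        E * N * (-A * (si * c + co * s) + B * (co * c - si * s)) ∧
      -(E * (px0 * co + py0 * si)) + (g1 * (E * co) + g2 * (-(E * si))) =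
        -(E * N * (A * (co * c - si * s) + B * (si * c + co * s))) := by
  subst hx hy
  constructor <;> ring

end

/-- the lift of a holomorphic local isometry to the unit vectors preserves the frame -/
theorem germ : StGerm := by
  intro Ω φ z0 r γ hO hφ hr hsub hγ hh
  have ho : IsOpen (Metric.ball z0 r) := Metric.isOpen_ball
  refine ⟨fun ζ hζ => curv_eq hO hφ hγ hh hζ, fun a ha => ?_⟩
  have hz0 : z0 ∈ Metric.ball z0 r := Metric.mem_ball_self hr
  have hne0 : deriv γ z0 ≠ 0 := (hh z0 hz0).2.1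
  -- the radius
  have hcont : ContinuousAt (fun ζ => deriv γ ζ / deriv γ z0) z0 :=
    ((dgam hγ hz0).2.continuousAt).div_const _
  have hev : ∀ᶠ ζ in 𝓝 z0, ‖deriv γ ζ / deriv γ z0 - 1‖ < 1 := by
    have h1 : ContinuousAt (fun ζ => ‖deriv γ ζ / deriv γ z0 - 1‖) z0 :=
      (hcont.sub continuousAt_const).norm
    have h2 : ‖deriv γ z0 / deriv γ z0 - 1‖ < 1 := by simp [div_self hne0]
    exact h1.eventually (gt_mem_nhds h2)
  obtain ⟨r1, hr1, hr1'⟩ := Metric.eventually_nhds_iff_ball.mp hev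
  set r' : ℝ := min r r1 with hr'
  have hr'0 : 0 < r' := lt_min hr hr1
  have hin : ∀ ζ ∈ Metric.ball z0 r', ζ ∈ Metric.ball z0 r := fun ζ hζ =>
    Metric.ball_subset_ball (min_le_left _ _) hζ
  have hslit : ∀ ζ ∈ Metric.ball z0 r', deriv γ ζ / deriv γ z0 ∈ Complex.slitPlane := by
    intro ζ hζ
    have h1 := hr1' ζ (Metric.ball_subset_ball (min_le_right _ _) hζ)
    have h2 := Complex.mem_slitPlane_of_norm_lt_one h1
    simpa using h2
  set lg : ℂ → ℂ := fun ζ => Complex.log (deriv γ ζ / deriv γ z0) with hlg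
  set τ : ℂ → ℝ := fun ζ => a + (lg ζ).im with hτ
  have hlgd : ∀ ζ ∈ Metric.ball z0 r', HasDerivAt lg (deriv (deriv γ) ζ / deriv γ ζ) ζ := by
    intro ζ hζ
    have h1 : HasDerivAt (fun ξ => deriv γ ξ / deriv γ z0) (deriv (deriv γ) ζ / deriv γ z0) ζ :=
      (dgam hγ (hin ζ hζ)).2.div_const _
    have h2 := h1.clog (hslit ζ hζ)
    have h3 : deriv (deriv γ) ζ / deriv γ z0 / (deriv γ ζ / deriv γ z0) =
        deriv (deriv γ) ζ / deriv γ ζ := by
      have := (hh ζ (hin ζ hζ)).2.1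
      field_simp
    rw [h3] at h2
    exact h2
  have hdir : ∀ ζ ∈ Metric.ball z0 r',
      Complex.exp (τ ζ * Complex.I) * ‖deriv γ ζ‖ = deriv γ ζ := by
    intro ζ hζ
    have h1 : Complex.exp (τ ζ * Complex.I) =
        Complex.exp (a * Complex.I) * Complex.exp ((lg ζ).im * Complex.I) := by
      rw [← Complex.exp_add, hτ]; congr 1; push_cast; ring
    have h2 := Complex.norm_mul_exp_arg_mul_I (deriv γ ζ / deriv γ z0)
    have h3 : (lg ζ).im = Complex.arg (deriv γ ζ / deriv γ z0) := Complex.log_im _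
    have h4 : (‖deriv γ ζ‖ : ℂ) = ‖deriv γ ζ / deriv γ z0‖ * ‖deriv γ z0‖ := by
      rw [norm_div]
      have : (‖deriv γ z0‖ : ℂ) ≠ 0 := by simpa using hne0
      push_cast
      field_simp
    rw [h1, h3, h4]
    calc Complex.exp (a * Complex.I) * Complex.exp (Complex.arg (deriv γ ζ / deriv γ z0) *
          Complex.I) * (‖deriv γ ζ / deriv γ z0‖ * ‖deriv γ z0‖)
        = (‖deriv γ ζ / deriv γ z0‖ * Complex.exp (Complex.arg (deriv γ ζ / deriv γ z0) *
          Complex.I)) * (Complex.exp (a * Complex.I) * ‖deriv γ z0‖) := by ring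
      _ = deriv γ ζ := by rw [h2, ha]; field_simp
  refine ⟨r', τ, hr'0, min_le_left _ _, ?_, hdir, ?_, ?_⟩
  · simp [hτ, hlg, div_self hne0]
  · -- smoothness
    have hball : IsOpen (Metric.ball z0 r') := Metric.isOpen_ball
    have h1 : ContDiffOn ℝ ∞ γ (Metric.ball z0 r') := by
      have := (hγ.mono (fun ζ hζ => hin ζ hζ)).contDiffOn (n := ∞) hball
      exact this.restrict_scalars ℝ
    have h2 : ContDiffOn ℝ ∞ lg (Metric.ball z0 r') := by
      have h3 : DifferentiableOn ℂ lg (Metric.ball z0 r') := fun ζ hζ =>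
        (hlgd ζ hζ).differentiableAt.differentiableWithinAt
      exact (h3.contDiffOn (n := ∞) hball).restrict_scalars ℝ
    have h3 : ContDiffOn ℝ ∞ τ (Metric.ball z0 r') := by
      have h4 : ContDiffOn ℝ ∞ (fun ζ => (lg ζ).im) (Metric.ball z0 r') :=
        Complex.imCLM.contDiff.comp_contDiffOn h2
      exact contDiffOn_const.add h4
    have hm : MapsTo (Prod.fst : Y → ℂ) {y : Y | y.1 ∈ Metric.ball z0 r'} (Metric.ball z0 r') :=
      fun y hy => hy
    exact (h1.comp contDiff_fst.contDiffOn hm).prodMk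
      (contDiff_snd.contDiffOn.add (h3.comp contDiff_fst.contDiffOn hm))
  · intro y hy
    obtain ⟨hg1, hg2⟩ := dgam hγ (hin _ hy)
    have hne := (hh _ (hin _ hy)).2.1
    set g' : ℂ := deriv γ y.1 with hg'
    set G : ℂ := deriv (deriv γ) y.1 / deriv γ y.1 with hG
    have hD : HasFDerivAt (fun y : Y => ((γ y.1, y.2 + τ y.1) : Y))
        (((((ContinuousLinearMap.toSpanSingleton ℂ g').restrictScalars ℝ).comp
            (ContinuousLinearMap.fst ℝ ℂ ℝ))).prod
          (ContinuousLinearMap.snd ℝ ℂ ℝ + (Complex.imCLM.comp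
            ((ContinuousLinearMap.toSpanSingleton ℂ G).restrictScalars ℝ)).comp
              (ContinuousLinearMap.fst ℝ ℂ ℝ))) y := by
      have e1 : HasFDerivAt γ ((ContinuousLinearMap.toSpanSingleton ℂ g').restrictScalars ℝ) y.1 :=
        hg1.hasFDerivAt.restrictScalars ℝ
      have e2 := (re_im_deriv (hlgd _ hy)).1.2
      have e3 : HasFDerivAt τ (Complex.imCLM.comp
          ((ContinuousLinearMap.toSpanSingleton ℂ G).restrictScalars ℝ)) y.1 := e2.const_add a
      have f1 : HasFDerivAt (fun y : Y => y.1) (ContinuousLinearMap.fst ℝ ℂ ℝ) y :=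
        hasFDerivAt_fst
      have f2 : HasFDerivAt (fun y : Y => y.2) (ContinuousLinearMap.snd ℝ ℂ ℝ) y :=
        hasFDerivAt_snd
      exact (e1.comp y f1).prodMk (f2.add (e3.comp y f1))
    -- the direction of `γ'`
    have hN : (0 : ℝ) < ‖g'‖ := norm_pos_iff.mpr hne
    have hd := hdir _ hy
    have hre : g'.re = ‖g'‖ * Real.cos (τ y.1) := by
      have := congrArg Complex.re hd
      rw [Complex.re_mul_ofReal, Complex.exp_ofReal_mul_I_re, ← hg'] at this
      linarith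
    have him : g'.im = ‖g'‖ * Real.sin (τ y.1) := by
      have := congrArg Complex.im hd
      rw [Complex.im_mul_ofReal, Complex.exp_ofReal_mul_I_im, ← hg'] at this
      linarith
    have hex := expo hh (hin _ hy)
    obtain ⟨hx, hy'⟩ := first hO hφ hγ hh (hin _ hy)
    rw [← hg', ← hG] at hx hy'
    rw [hre, him] at hx hy'
    obtain ⟨k1, k2⟩ := frame_calc (E := Real.exp (-φ y.1)) (co := Real.cos y.2)
      (si := Real.sin y.2) hx hy'
    rw [hD.fderiv]
    refine ⟨?_, ?_, ?_⟩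
    · refine Prod.ext ?_ ?_
      · simp only [ContinuousLinearMap.prod_apply, ContinuousLinearMap.comp_apply,
          ContinuousLinearMap.coe_restrictScalars', ContinuousLinearMap.coe_fst',
          ContinuousLinearMap.toSpanSingleton_apply, smul_eq_mul, XX]
        apply Complex.ext
        · simp only [Complex.mul_re, hre, him, hex, Real.cos_add]
          ring
        · simp only [Complex.mul_im, hre, him, hex, Real.sin_add]
          ring
      · simp only [ContinuousLinearMap.prod_apply, ContinuousLinearMap.comp_apply,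
          ContinuousLinearMap.coe_restrictScalars', ContinuousLinearMap.coe_fst',
          ContinuousLinearMap.coe_snd', add_apply, Complex.imCLM_apply,
          ContinuousLinearMap.toSpanSingleton_apply, smul_eq_mul, XX]
        simp only [Complex.mul_im, hex, Real.sin_add, Real.cos_add]
        rw [← hg']
        linarith [k1]
    · refine Prod.ext ?_ ?_
      · simp only [ContinuousLinearMap.prod_apply, ContinuousLinearMap.comp_apply,
          ContinuousLinearMap.coe_restrictScalars', ContinuousLinearMap.coe_fst',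
          ContinuousLinearMap.toSpanSingleton_apply, smul_eq_mul, HH]
        apply Complex.ext
        · simp only [Complex.mul_re, hre, him, hex, Real.sin_add]
          ring
        · simp only [Complex.mul_im, hre, him, hex, Real.cos_add]
          ring
      · simp only [ContinuousLinearMap.prod_apply, ContinuousLinearMap.comp_apply,
          ContinuousLinearMap.coe_restrictScalars', ContinuousLinearMap.coe_fst',
          ContinuousLinearMap.coe_snd', add_apply, Complex.imCLM_apply,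
          ContinuousLinearMap.toSpanSingleton_apply, smul_eq_mul, HH]
        simp only [Complex.mul_im, hex, Real.sin_add, Real.cos_add]
        rw [← hg']
        linarith [k2]
    · simp [VV]

end Pool.Agent.Y46.EG
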